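import Mathlib

/-! conformal iterated function systems -/

set_option autoImplicit false

open Set Filter Topology MeasureTheory
open scoped ENNReal NNReal

namespace Pool.Agent.X86.DS

/-- The space `ℝ^d`. -/
abbrev Rd (d : ℕ) : Type := EuclideanSpace ℝ (Fin d)

/-- The open cone in `ℝ^d` with vertex `x`, axis direction `u`, angle `α` and height `l`. -/
def cone {d : ℕ} (x u : Rd d) (α l : ℝ) : Set (Rd d) :=
  {y | y ≠ x ∧ InnerProductGeometry.angle (y - x) u < α ∧ inner ℝ (y - x) u < l}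

/-- The composition `φ_{w_1} ∘ ⋯ ∘ φ_{w_n}` along a word `w`. -/
def word {E V : Type} (φ : E → V → V) : List E → V → V
  | [] => id
  | e :: w => φ e ∘ word φ w

/-- `X` is compact, connected and equal to the closure of its interior. -/
def GoodSet {d : ℕ} (X : Set (Rd d)) : Prop :=
  IsCompact X ∧ IsConnected X ∧ closure (interior X) = X

/-- The maps `φ e` are contractions of `X` with a common constant `s < 1`. -/
def Contracting {d : ℕ} {E : Type} (X : Set (Rd d)) (φ : E → Rd d → Rd d) : Prop :=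
  (∀ e, MapsTo (φ e) X X) ∧
    ∃ s : ℝ, s < 1 ∧ ∀ e, ∀ x ∈ X, ∀ y ∈ X, dist (φ e x) (φ e y) ≤ s * dist x y

/-- The open set condition. -/
def OpenSetCondition {d : ℕ} {E : Type} (X : Set (Rd d)) (φ : E → Rd d → Rd d) : Prop :=
  ∀ a b, a ≠ b → Disjoint (φ a '' interior X) (φ b '' interior X)

/-- `f` is a conformal diffeomorphism of `U` into `U` of class `C^{1+ε}`. -/
def ConformalInto {d : ℕ} (U : Set (Rd d)) (ε : ℝ) (f : Rd d → Rd d) : Prop :=
  MapsTo f U U ∧ InjOn f U ∧ ContDiffOn ℝ 1 f U ∧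
    (∀ x ∈ U, ∃ c : ℝ, 0 < c ∧ ∀ h, ‖fderiv ℝ f x h‖ = c * ‖h‖) ∧
    ∃ C : ℝ, ∀ x ∈ U, ∀ y ∈ U, ‖fderiv ℝ f x - fderiv ℝ f y‖ ≤ C * dist x y ^ ε

/-- The cone condition. -/
def ConeCondition {d : ℕ} (X : Set (Rd d)) : Prop :=
  ∃ α l : ℝ, 0 < α ∧ α < Real.pi / 2 ∧ 0 < l ∧ ∀ x ∈ frontier X,
    ∃ u : Rd d, ‖u‖ = 1 ∧ cone x u α l ⊆ interior X

/-- Bounded distortion. -/
def BoundedDistortion {d : ℕ} {E : Type} (U : Set (Rd d)) (φ : E → Rd d → Rd d) : Prop :=
  ∃ K : ℝ, 1 ≤ K ∧ ∀ w : List E, ∀ x ∈ U, ∀ y ∈ U,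
    ‖fderiv ℝ (word φ w) y‖ ≤ K * ‖fderiv ℝ (word φ w) x‖

/-- A conformal iterated function system on `ℝ^d` with alphabet `E`: the maps `φ e : X → X` are
the restrictions to `X` of maps defined on the open connected set `U ⊇ X`. -/
structure CIFS (d : ℕ) (E : Type) where
  /-- the compact set -/
  X : Set (Rd d)
  /-- the open neighbourhood of `X` -/
  U : Set (Rd d)
  /-- the maps -/
  φ : E → Rd d → Rd d
  countable : Countable E
  nontrivial : Nontrivial E
  goodSet : GoodSet X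
  contracting : Contracting X φ
  openSetCondition : OpenSetCondition X φ
  open_U : IsOpen U
  connected_U : IsConnected U
  X_sub : X ⊆ U
  conformal : ∃ ε : ℝ, 0 < ε ∧ ∀ e, ConformalInto U ε (φ e)
  coneCondition : ConeCondition X
  boundedDistortion : BoundedDistortion U φ

/-- The limit set of the subsystem with alphabet `F`: all points of
`⋂ n, φ_{ω_1} ∘ ⋯ ∘ φ_{ω_n} (X)` for the infinite words `ω` over `F`. -/
def CIFS.J {d : ℕ} {E : Type} (S : CIFS d E) (F : Set E) : Set (Rd d) :=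
  {x | ∃ ω : ℕ → E, (∀ n, ω n ∈ F) ∧ ∀ n, x ∈ word S.φ ((List.range n).map ω) '' S.X}

/-- The local Hausdorff dimension of `F ⊆ ℝ` at `x`. -/
noncomputable def localDim (F : Set ℝ) (x : ℝ) : ℝ≥0∞ :=
  ⨅ (ε : ℝ) (_ : 0 < ε), dimH (F ∩ Metric.ball x ε)

end Pool.Agent.X86.DS
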