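import Pool.Agent.X86.DS.Spec

/-! the upper part of the spectrum is small -/

set_option autoImplicit false

open Set Filter Topology MeasureTheory
open scoped ENNReal NNReal

namespace Pool.Agent.X86.DS

variable {a : ℕ → ℕ}

/-- the tail after `N` blocks -/
lemma tail_le (h2 : ∀ n, a n + 1 ≤ a (n + 1)) {s q : ℝ} (hq0 : 0 < q) (hq1 : q < 1)
    (hq : 2 * (1 / 4 : ℝ) ^ s ≤ q) (F : Set (Let a)) (N : ℕ) :
    ∑' n, ENNReal.ofReal (KK F (n + N) * ((1 / 4 : ℝ) ^ a (n + N)) ^ s) ≤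
      ENNReal.ofReal (q ^ a N / (1 - q)) := by
  have hmono : ∀ n, a N + n ≤ a (n + N) := by
    intro n
    induction n with
    | zero => simp
    | succ n ih =>
      have := h2 (n + N)
      have e : n + 1 + N = n + N + 1 := by omega
      rw [e]; omega
  have hterm : ∀ n, (KK F (n + N) : ℝ) * ((1 / 4 : ℝ) ^ a (n + N)) ^ s ≤ q ^ a N * q ^ n := by
    intro n
    have h1 : (KK F (n + N) : ℝ) ≤ 2 ^ a (n + N) := by exact_mod_cast KK_le F (n + N)
    have h3 : ((1 / 4 : ℝ) ^ a (n + N)) ^ s = ((1 / 4 : ℝ) ^ s) ^ a (n + N) := by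
      rw [← Real.rpow_natCast ((1 / 4 : ℝ) ^ s), ← Real.rpow_mul (by norm_num), mul_comm s,
        Real.rpow_mul (by norm_num), Real.rpow_natCast]
    have h4 : (0:ℝ) < (1 / 4 : ℝ) ^ s := by positivity
    calc (KK F (n + N) : ℝ) * ((1 / 4 : ℝ) ^ a (n + N)) ^ s ≤
          2 ^ a (n + N) * ((1 / 4 : ℝ) ^ a (n + N)) ^ s :=
          mul_le_mul_of_nonneg_right h1 (by positivity)
      _ = (2 * (1 / 4 : ℝ) ^ s) ^ a (n + N) := by rw [h3, mul_pow]
      _ ≤ q ^ a (n + N) := pow_le_pow_left₀ (by positivity) hq _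
      _ ≤ q ^ (a N + n) := pow_le_pow_of_le_one hq0.le hq1.le (hmono n)
      _ = q ^ a N * q ^ n := pow_add _ _ _
  have hsum : HasSum (fun n : ℕ => q ^ a N * q ^ n) (q ^ a N * (1 - q)⁻¹) :=
    (hasSum_geometric_of_lt_one hq0.le hq1).mul_left _
  calc ∑' n, ENNReal.ofReal (KK F (n + N) * ((1 / 4 : ℝ) ^ a (n + N)) ^ s) ≤
        ∑' n : ℕ, ENNReal.ofReal (q ^ a N * q ^ n) :=
        ENNReal.tsum_le_tsum fun n => ENNReal.ofReal_le_ofReal (hterm n)
    _ = ENNReal.ofReal (∑' n : ℕ, q ^ a N * q ^ n) :=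
        (ENNReal.ofReal_tsum_of_nonneg (fun n => by positivity) hsum.summable).symm
    _ = ENNReal.ofReal (q ^ a N / (1 - q)) := by rw [hsum.tsum_eq, div_eq_mul_inv]

/-- two alphabets with the same beginning have close dimensions -/
lemma dm_close (ha : ∀ n, n + 2 ≤ a n) (h2 : ∀ n, a n + 1 ≤ a (n + 1)) {t q : ℝ}
    (hq0 : 0 < q) (hq1 : q < 1) (hq : 2 * (1 / 4 : ℝ) ^ t ≤ q) {F F' : Set (Let a)} {N : ℕ}
    (hK : ∀ n < N, KK F n = KK F' n) (hF' : t ≤ (sys a ha).dm F) :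
    (sys a ha).dm F' - (sys a ha).dm F ≤ 4 / 3 * (q ^ a N / (1 - q)) := by
  set x := (sys a ha).dm F with hx
  set x' := (sys a ha).dm F' with hx'
  have hq1' : 0 < 1 - q := by linarith
  by_contra hcon
  push Not at hcon
  have hτ0 : 0 ≤ q ^ a N / (1 - q) := by positivity
  have hlt : x < x' := by nlinarith
  have hx0 : 0 ≤ x := (sys a ha).dm_nonneg F
  have hx1 : x' ≤ 1 := (sys a ha).dm_le_one F'
  -- choose s1, s2
  set τ := q ^ a N / (1 - q) with hτ
  set δ := (x' - x - 4 / 3 * τ) / 3 with hδ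
  have hδ0 : 0 < δ := by rw [hδ]; linarith
  set s1 := x + δ with hs1
  set s2 := x' - δ with hs2
  have hs12 : s2 - s1 = (x' - x) - 2 * δ := by rw [hs1, hs2]; ring
  have hu : 4 / 3 * τ < s2 - s1 := by rw [hs12, hδ]; linarith
  have hs1x : x < s1 := by rw [hs1]; linarith
  have hs2x : s2 < x' := by rw [hs2]; linarith
  have hs2t : t ≤ s2 := by linarith
  have hA1 : ∑' e, (sys a ha).wt F s1 e < 1 := by
    by_contra h
    push Not at h
    have := (sys a ha).le_dm h
    linarith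
  have hA2 : 1 < ∑' e, (sys a ha).wt F' s2 e := by
    by_contra h
    push Not at h
    have := (sys a ha).dm_le (by linarith) h
    linarith
  rw [tsum_wt] at hA1 hA2
  -- split
  set A : ℝ → ℝ := fun s => ∑ n ∈ Finset.range N, (KK F n : ℝ) * ((1 / 4 : ℝ) ^ a n) ^ s with hA
  have hA0 : ∀ s, 0 ≤ A s := fun s => Finset.sum_nonneg fun n _ => by positivity
  have e1 : ENNReal.ofReal (A s1) < 1 := by
    refine lt_of_le_of_lt ?_ hA1
    rw [hA, ENNReal.ofReal_sum_of_nonneg (fun n _ => by positivity)]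
    exact ENNReal.sum_le_tsum _
  have e1' : A s1 < 1 := by
    rwa [← ENNReal.ofReal_one, ENNReal.ofReal_lt_ofReal_iff one_pos] at e1
  have e2 : 1 < ENNReal.ofReal (A s2 + τ) := by
    refine lt_of_lt_of_le hA2 ?_
    rw [← (ENNReal.summable).sum_add_tsum_nat_add' (k := N)]
    rw [ENNReal.ofReal_add (hA0 _) hτ0]
    apply add_le_add
    · rw [hA, ENNReal.ofReal_sum_of_nonneg (fun n _ => by positivity)]
      apply le_of_eq
      refine Finset.sum_congr rfl fun n hn => ?_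
      rw [hK n (Finset.mem_range.mp hn)]
    · apply tail_le h2 hq0 hq1 _ F' N
      refine le_trans ?_ hq
      have := Real.rpow_le_rpow_of_exponent_ge (x := (1 / 4 : ℝ)) (by norm_num) (by norm_num) hs2t
      linarith
  have e2' : 1 < A s2 + τ := by
    rwa [ENNReal.one_lt_ofReal] at e2
  -- compare A s1 and A s2
  set u := s2 - s1 with hu'
  have hu0 : 0 < u := by linarith [mul_nonneg (by norm_num : (0:ℝ) ≤ 4 / 3) hτ0]
  have hu1 : u ≤ 1 := by linarith
  have e3 : A s2 ≤ (1 / 4 : ℝ) ^ u * A s1 := by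
    rw [hA]
    simp only
    rw [Finset.mul_sum]
    refine Finset.sum_le_sum fun n _ => ?_
    have h3 : s2 = s1 + u := by rw [hu']; ring
    rw [h3, Real.rpow_add (by positivity)]
    have h4 : ((1 / 4 : ℝ) ^ a n) ^ u ≤ (1 / 4 : ℝ) ^ u := by
      apply Real.rpow_le_rpow (by positivity) _ hu0.le
      calc (1 / 4 : ℝ) ^ a n ≤ (1 / 4) ^ 1 :=
            pow_le_pow_of_le_one (by norm_num) (by norm_num) (by have := ha n; omega)
        _ = 1 / 4 := by norm_num
    have h5 : 0 ≤ (KK F n : ℝ) * ((1 / 4 : ℝ) ^ a n) ^ s1 := by positivity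
    calc (KK F n : ℝ) * (((1 / 4 : ℝ) ^ a n) ^ s1 * ((1 / 4 : ℝ) ^ a n) ^ u) =
          ((1 / 4 : ℝ) ^ a n) ^ u * ((KK F n : ℝ) * ((1 / 4 : ℝ) ^ a n) ^ s1) := by ring
      _ ≤ _ := mul_le_mul_of_nonneg_right h4 h5
  have e4 : (1 / 4 : ℝ) ^ u ≤ 1 - 3 / 4 * u := by
    have := rpow_one_add_le_one_add_mul_self (s := -(3 / 4)) (by norm_num) hu0.le hu1
    have h6 : (1 + -(3 / 4) : ℝ) = 1 / 4 := by norm_num
    rw [h6] at this
    linarith
  have e5 : A s2 ≤ (1 / 4 : ℝ) ^ u := by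
    refine e3.trans ?_
    have : (0:ℝ) < (1 / 4) ^ u := by positivity
    nlinarith
  linarith

/-- **the spectrum above `t > 1/2` has dimension zero** -/
theorem spec_high (ha : ∀ n, n + 2 ≤ a n) (h2 : ∀ n, a n + 1 ≤ a (n + 1))
    (h3 : ∀ n, (n + 1) * ∑ k ∈ Finset.range (n + 1), (a k + 1) ≤ a (n + 1)) {t : ℝ}
    (ht : 1 / 2 < t) : dimH ((sys a ha).spec ∩ Ici t) = 0 := by
  classical
  borelize ℝ
  obtain ⟨q, hq0, hq1, hq⟩ : ∃ q : ℝ, 0 < q ∧ q < 1 ∧ 2 * (1 / 4 : ℝ) ^ t ≤ q := by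
    refine ⟨2 * (1 / 4 : ℝ) ^ t, by positivity, ?_, le_rfl⟩
    have h := Real.rpow_lt_rpow_of_exponent_gt (x := (1 / 4 : ℝ)) (by norm_num) (by norm_num) ht
    have e1 : ((1 / 4 : ℝ) ^ (1 / 2 : ℝ)) = 1 / 2 := by
      have : (1 / 4 : ℝ) = (1 / 2) ^ (2 : ℝ) := by norm_num
      rw [this, ← Real.rpow_mul (by norm_num)]; norm_num
    rw [e1] at h
    linarith
  have hq1' : 0 < 1 - q := by linarith
  -- the diameters
  set D : ℕ → ℝ := fun N => 4 / 3 * (q ^ a N / (1 - q)) with hD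
  have hD0 : ∀ N, 0 ≤ D N := fun N => by simp only [hD]; positivity
  have haN : ∀ N, N ≤ a N := fun N => by have := ha N; omega
  have hDt : Tendsto D atTop (𝓝 0) := by
    have h1 : Tendsto (fun N : ℕ => 4 / 3 * (q ^ N / (1 - q))) atTop (𝓝 (4 / 3 * (0 / (1 - q)))) :=
      ((tendsto_pow_atTop_nhds_zero_of_lt_one hq0.le hq1).div_const _).const_mul _
    rw [zero_div, mul_zero] at h1
    refine squeeze_zero hD0 (fun N => ?_) h1
    simp only [hD]
    have := pow_le_pow_of_le_one hq0.le hq1.le (haN N)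
    gcongr
  have hrt : Tendsto (fun N => ENNReal.ofReal (D (N + 1))) atTop (𝓝 0) := by
    rw [← ENNReal.ofReal_zero]
    exact ENNReal.tendsto_ofReal ((tendsto_add_atTop_iff_nat 1).mpr hDt)
  -- the cover
  set cov : (N : ℕ) → ((n : Fin (N + 1)) → Fin (2 ^ a n + 1)) → Set ℝ := fun N v =>
    {x | ∃ F : Set (Let a), x = (sys a ha).dm F ∧ t ≤ x ∧ ∀ n : Fin (N + 1), KK F n = v n} with hcov
  have hd : ∀ᶠ N : ℕ in atTop, ∀ v, Metric.ediam (cov N v) ≤ ENNReal.ofReal (D (N + 1)) := by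
    refine Eventually.of_forall fun N v => ?_
    apply Metric.ediam_le
    rintro x ⟨F, hxF, hxt, hKF⟩ y ⟨G, hyG, hyt, hKG⟩
    rw [edist_dist, Real.dist_eq]
    apply ENNReal.ofReal_le_ofReal
    have hKFG : ∀ n < N + 1, KK F n = KK G n := by
      intro n hn
      rw [hKF ⟨n, hn⟩, hKG ⟨n, hn⟩]
    rw [abs_le]
    constructor
    · have := dm_close ha h2 hq0 hq1 hq hKFG (hxF ▸ hxt)
      rw [← hxF, ← hyG] at this
      simp only [hD]; linarith
    · have := dm_close ha h2 hq0 hq1 hq (fun n hn => (hKFG n hn).symm) (hyG ▸ hyt)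
      rw [← hxF, ← hyG] at this
      simp only [hD]; linarith
  have hc : ∀ᶠ N : ℕ in atTop, (sys a ha).spec ∩ Ici t ⊆ ⋃ v, cov N v := by
    refine Eventually.of_forall fun N x hx => ?_
    obtain ⟨⟨F, hF, hxF⟩, hxt⟩ := hx
    rw [mem_iUnion]
    exact ⟨fun n => ⟨KK F n, Nat.lt_succ_of_le (KK_le F n)⟩, F, hxF, hxt, fun n => rfl⟩
  -- dimension at most ε for all ε
  have key : ∀ ε : ℝ, 0 < ε → dimH ((sys a ha).spec ∩ Ici t) ≤ ENNReal.ofReal ε := by
    intro ε hε
    have hm := Measure.hausdorffMeasure_le_liminf_tsum (X := ℝ) (β := ℕ)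
      (ι := fun N => (n : Fin (N + 1)) → Fin (2 ^ a n + 1)) ε ((sys a ha).spec ∩ Ici t) (l := atTop)
      (fun N : ℕ => ENNReal.ofReal (D (N + 1))) hrt cov hd hc
    set C : ℝ := (4 / 3 / (1 - q)) ^ ε with hC
    have hbound : ∀ᶠ N : ℕ in atTop, ∑' v, Metric.ediam (cov N v) ^ ε ≤ ENNReal.ofReal C := by
      have hqe : (q ^ ε) < 1 := Real.rpow_lt_one hq0.le hq1 hε
      have hlim : Tendsto (fun N : ℕ => (q ^ ε) ^ (N + 1)) atTop (𝓝 0) :=
        (tendsto_add_atTop_iff_nat 1).mpr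
          (tendsto_pow_atTop_nhds_zero_of_lt_one (by positivity) hqe)
      filter_upwards [hd, hlim.eventually_lt_const (by norm_num : (0:ℝ) < 1 / 2)] with N hN hN2
      set SN := ∑ k ∈ Finset.range (N + 1), (a k + 1) with hSN
      have hcard : (Fintype.card ((n : Fin (N + 1)) → Fin (2 ^ a n + 1)) : ℝ) ≤ 2 ^ SN := by
        rw [Fintype.card_pi]
        push_cast
        simp only [Fintype.card_fin]
        push_cast
        rw [hSN, ← Fin.sum_univ_eq_sum_range (fun k => a k + 1), ← Finset.prod_pow_eq_pow_sum]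
        apply Finset.prod_le_prod
        · intro i _; positivity
        · intro i _
          have : (1:ℝ) ≤ 2 ^ a i := one_le_pow₀ (by norm_num)
          rw [pow_succ]; linarith
      calc ∑' v, Metric.ediam (cov N v) ^ ε ≤
            ∑' v : ((n : Fin (N + 1)) → Fin (2 ^ a n + 1)), ENNReal.ofReal (D (N + 1)) ^ ε :=
            ENNReal.tsum_le_tsum fun v => ENNReal.rpow_le_rpow (hN v) hε.le
        _ = ENNReal.ofReal ((Fintype.card ((n : Fin (N + 1)) → Fin (2 ^ a n + 1)) : ℝ) *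
              D (N + 1) ^ ε) := by
            rw [tsum_fintype, Finset.sum_const, nsmul_eq_mul, Finset.card_univ,
              ENNReal.ofReal_rpow_of_nonneg (hD0 _) hε.le,
              ENNReal.ofReal_mul (Nat.cast_nonneg _), ENNReal.ofReal_natCast]
        _ ≤ ENNReal.ofReal C := by
            apply ENNReal.ofReal_le_ofReal
            have h5 : D (N + 1) ^ ε = C * (q ^ ε) ^ a (N + 1) := by
              have : D (N + 1) = (4 / 3 / (1 - q)) * q ^ a (N + 1) := by
                simp only [hD]; ring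
              rw [this, Real.mul_rpow (by positivity) (by positivity), hC]
              congr 1
              rw [← Real.rpow_natCast (q ^ ε), ← Real.rpow_mul hq0.le, mul_comm ε,
                Real.rpow_mul hq0.le, Real.rpow_natCast]
            have h6 : (q ^ ε) ^ a (N + 1) ≤ (1 / 2 : ℝ) ^ SN := by
              calc (q ^ ε) ^ a (N + 1) ≤ (q ^ ε) ^ ((N + 1) * SN) :=
                    pow_le_pow_of_le_one (by positivity) hqe.le (h3 N)
                _ = ((q ^ ε) ^ (N + 1)) ^ SN := pow_mul _ _ _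
                _ ≤ (1 / 2 : ℝ) ^ SN := pow_le_pow_left₀ (by positivity) hN2.le _
            have h7 : (2:ℝ) ^ SN * (1 / 2) ^ SN = 1 := by rw [← mul_pow]; norm_num
            have hC0 : 0 ≤ C := by rw [hC]; positivity
            rw [h5]
            calc (Fintype.card ((n : Fin (N + 1)) → Fin (2 ^ a n + 1)) : ℝ) *
                  (C * (q ^ ε) ^ a (N + 1)) ≤ 2 ^ SN * (C * (1 / 2 : ℝ) ^ SN) := by gcongr
              _ = C * (2 ^ SN * (1 / 2 : ℝ) ^ SN) := by ring
              _ = C := by rw [h7, mul_one]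
    have h6 : μH[ε] ((sys a ha).spec ∩ Ici t) ≤ ENNReal.ofReal C := by
      refine hm.trans ?_
      refine (liminf_le_liminf hbound).trans ?_
      simp
    have h7 : μH[((⟨ε, hε.le⟩ : ℝ≥0) : ℝ)] ((sys a ha).spec ∩ Ici t) ≠ ∞ :=
      (lt_of_le_of_lt h6 ENNReal.ofReal_lt_top).ne
    have h8 := dimH_le_of_hausdorffMeasure_ne_top h7
    refine h8.trans (le_of_eq ?_)
    exact (ENNReal.ofReal_eq_coe_nnreal hε.le).symm
  apply le_antisymm _ zero_le
  have hl : Tendsto (fun ε : ℝ => ENNReal.ofReal ε) (𝓝[>] 0) (𝓝 0) := by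
    rw [← ENNReal.ofReal_zero]
    exact (ENNReal.continuous_ofReal.tendsto 0).mono_left nhdsWithin_le_nhds
  exact ge_of_tendsto hl (eventually_mem_nhdsWithin.mono fun ε hε => key ε hε)

end Pool.Agent.X86.DS
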