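import Pool.Agent.X86.AF.Lower

/-! systems of separated similarities on the unit interval -/

set_option autoImplicit false

open Set Filter Topology MeasureTheory
open scoped ENNReal NNReal

namespace Pool.Agent.X86.DS

/-- separated similarities of `[0, 1]` -/
structure Sim (ι : Type) where
  r : ι → ℝ
  c : ι → ℝ
  r_pos : ∀ e, 0 < r e
  r_le : ∀ e, r e ≤ 1 / 4
  c_nonneg : ∀ e, 0 ≤ c e
  c_add : ∀ e, c e + r e ≤ 1
  disj : ∀ e e', e ≠ e' → c e + r e < c e' ∨ c e' + r e' < c e

variable {ι : Type} (S : Sim ι)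

namespace Sim

/-- the composition along a word -/
noncomputable def ww (w : List ι) (x : ℝ) : ℝ := w.foldr (fun e z => S.r e * z + S.c e) x

@[simp] lemma ww_nil (x : ℝ) : S.ww [] x = x := rfl
@[simp] lemma ww_cons (e : ι) (w : List ι) (x : ℝ) : S.ww (e :: w) x = S.r e * S.ww w x + S.c e := rfl

lemma ww_append (v w : List ι) (x : ℝ) : S.ww (v ++ w) x = S.ww v (S.ww w x) := by
  simp [ww]

/-- ratio of a word -/
noncomputable def rw' (w : List ι) : ℝ := (w.map S.r).prod

@[simp] lemma rw'_nil : S.rw' [] = 1 := rfl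
@[simp] lemma rw'_cons (e : ι) (w : List ι) : S.rw' (e :: w) = S.r e * S.rw' w := by simp [rw']

lemma rw'_pos (w : List ι) : 0 < S.rw' w := by
  induction w with
  | nil => simp
  | cons e w ih => rw [rw'_cons]; exact mul_pos (S.r_pos e) ih

lemma ww_sub (w : List ι) (x y : ℝ) : S.ww w x - S.ww w y = S.rw' w * (x - y) := by
  induction w with
  | nil => simp
  | cons e w ih =>
    rw [ww_cons, ww_cons, rw'_cons]
    have : S.r e * S.ww w x + S.c e - (S.r e * S.ww w y + S.c e) = S.r e * (S.ww w x - S.ww w y) := by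
      ring
    rw [this, ih]; ring

lemma map1 (e : ι) {x : ℝ} (hx : x ∈ Icc (0:ℝ) 1) :
    S.r e * x + S.c e ∈ Icc (S.c e) (S.c e + S.r e) := by
  have h1 := S.r_pos e
  constructor
  · have := mul_nonneg h1.le hx.1; linarith
  · have : S.r e * x ≤ S.r e * 1 := mul_le_mul_of_nonneg_left hx.2 h1.le
    linarith

lemma map2 (e : ι) {x : ℝ} (hx : x ∈ Icc (0:ℝ) 1) : S.r e * x + S.c e ∈ Icc (0:ℝ) 1 := by
  have h := S.map1 e hx
  exact ⟨(S.c_nonneg e).trans h.1, h.2.trans (S.c_add e)⟩

lemma ww_mem (w : List ι) {x : ℝ} (hx : x ∈ Icc (0:ℝ) 1) : S.ww w x ∈ Icc (0:ℝ) 1 := by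
  induction w with
  | nil => exact hx
  | cons e w ih => exact S.map2 e ih

lemma rw'_le (w : List ι) : S.rw' w ≤ (1 / 4) ^ w.length := by
  induction w with
  | nil => simp
  | cons e w ih =>
    rw [rw'_cons, List.length_cons, pow_succ']
    exact mul_le_mul (S.r_le e) ih (S.rw'_pos w).le (by norm_num)

lemma continuous_ww (w : List ι) : Continuous (S.ww w) := by
  induction w with
  | nil => exact continuous_id
  | cons e w ih =>
    have : S.ww (e :: w) = fun x => S.r e * S.ww w x + S.c e := rfl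
    rw [this]; fun_prop

/-- prefixes -/
def pre (ω : ℕ → ι) (n : ℕ) : List ι := (List.range n).map ω

@[simp] lemma pre_length (ω : ℕ → ι) (n : ℕ) : (pre ω n).length = n := by simp [pre]

lemma pre_succ (ω : ℕ → ι) (n : ℕ) : pre ω (n + 1) = pre ω n ++ [ω n] := by
  unfold pre; rw [List.range_succ, List.map_append]; simp

/-- the limit set -/
def J (F : Set ι) : Set ℝ :=
  {x | ∃ ω : ℕ → ι, (∀ n, ω n ∈ F) ∧ ∀ n, x ∈ S.ww (pre ω n) '' Icc 0 1}

lemma J_mono {F F' : Set ι} (h : F ⊆ F') : S.J F ⊆ S.J F' := by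
  rintro x ⟨ω, h1, h2⟩
  exact ⟨ω, fun n => h (h1 n), h2⟩

lemma J_sub (F : Set ι) : S.J F ⊆ Icc 0 1 := by
  rintro x ⟨ω, h1, h2⟩
  obtain ⟨y, hy, rfl⟩ := h2 0
  exact S.ww_mem _ hy

/-- points of codes -/
lemma exists_point (ω : ℕ → ι) : ∃ x, ∀ n, x ∈ S.ww (pre ω n) '' Icc (0:ℝ) 1 := by
  have h := IsCompact.nonempty_iInter_of_sequence_nonempty_isCompact_isClosed
    (fun n => S.ww (pre ω n) '' Icc (0:ℝ) 1) (fun n => ?_) (fun n => ?_) ?_ (fun n => ?_)
  · obtain ⟨x, hx⟩ := h
    exact ⟨x, fun n => mem_iInter.mp hx n⟩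
  · rintro _ ⟨y, hy, rfl⟩
    rw [pre_succ, S.ww_append]
    exact ⟨_, S.ww_mem [ω n] hy, rfl⟩
  · exact (nonempty_Icc.mpr zero_le_one).image _
  · exact isCompact_Icc.image (S.continuous_ww _)
  · exact (isCompact_Icc.image (S.continuous_ww _)).isClosed

/-- sums of products over words -/
lemma tsum_prod [Countable ι] : ∀ (n : ℕ) (g : ι → ℝ≥0∞),
    ∑' w : Fin n → ι, ∏ i : Fin n, g (w i) = (∑' m, g m) ^ n := by
  intro n
  induction n with
  | zero =>
    intro g
    simp
  | succ n ih =>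
    intro g
    rw [pow_succ', ← (Fin.consEquiv fun _ => ι).tsum_eq]
    have h1 : ∀ z : ι × (Fin n → ι), ∏ i : Fin (n + 1), g ((Fin.consEquiv fun _ => ι) z i) =
        g z.1 * ∏ i : Fin n, g (z.2 i) := by
      intro z
      rw [Fin.prod_univ_succ]
      simp [Fin.consEquiv]
    simp_rw [h1]
    rw [ENNReal.tsum_prod']
    simp_rw [ENNReal.tsum_mul_left]
    rw [ENNReal.tsum_mul_right, ih g]

lemma pre_eq_ofFn (ω : ℕ → ι) (n : ℕ) : pre ω n = List.ofFn (fun i : Fin n => ω i) := by
  unfold pre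
  apply List.ext_getElem
  · simp
  · intro i h1 h2
    simp

/-- the weight of a letter -/
noncomputable def wt (F : Set ι) (s : ℝ) (e : ι) : ℝ≥0∞ := by
  classical
  exact if e ∈ F then ENNReal.ofReal (S.r e ^ s) else 0

/-- **Upper bound.** -/
theorem dim_le [Countable ι] {F : Set ι} {s : ℝ} (hs : 0 < s) (h : ∑' e, S.wt F s e ≤ 1) :
    dimH (S.J F) ≤ ENNReal.ofReal s := by
  classical
  borelize ℝ
  set cov : (n : ℕ) → (Fin n → ι) → Set ℝ := fun n w =>
    if ∀ i : Fin n, w i ∈ F then S.ww (List.ofFn w) '' Icc 0 1 else ∅ with hcov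
  have hdiam : ∀ (w : List ι), Metric.ediam (S.ww w '' Icc (0:ℝ) 1) ≤ ENNReal.ofReal (S.rw' w) := by
    intro w
    apply Metric.ediam_le
    rintro _ ⟨x, hx, rfl⟩ _ ⟨y, hy, rfl⟩
    rw [edist_dist, Real.dist_eq, S.ww_sub, abs_mul, abs_of_pos (S.rw'_pos w)]
    apply ENNReal.ofReal_le_ofReal
    have : |x - y| ≤ 1 := by
      rw [abs_le]; constructor <;> linarith [hx.1, hx.2, hy.1, hy.2]
    nlinarith [S.rw'_pos w]
  have hr : Tendsto (fun n : ℕ => ENNReal.ofReal ((1 / 4) ^ n)) atTop (𝓝 0) := by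
    rw [← ENNReal.ofReal_zero]
    apply ENNReal.tendsto_ofReal
    exact tendsto_pow_atTop_nhds_zero_of_lt_one (by norm_num) (by norm_num)
  have hd1 : ∀ᶠ n : ℕ in atTop, ∀ w : Fin n → ι, Metric.ediam (cov n w) ≤
      ENNReal.ofReal ((1 / 4) ^ n) := by
    refine Eventually.of_forall fun n w => ?_
    simp only [hcov]
    split_ifs with h
    · refine (hdiam _).trans (ENNReal.ofReal_le_ofReal ?_)
      have := S.rw'_le (List.ofFn w)
      rwa [List.length_ofFn] at this
    · simp
  have hc1 : ∀ᶠ n : ℕ in atTop, S.J F ⊆ ⋃ w : Fin n → ι, cov n w := by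
    refine Eventually.of_forall fun n z hz => ?_
    obtain ⟨ω, h1, h2⟩ := hz
    rw [mem_iUnion]
    refine ⟨fun i : Fin n => ω i, ?_⟩
    simp only [hcov]
    rw [if_pos fun i : Fin n => h1 i, ← pre_eq_ofFn]
    exact h2 n
  have key := Measure.hausdorffMeasure_le_liminf_tsum (X := ℝ) (β := ℕ)
    (ι := fun n => Fin n → ι) s (S.J F) (l := atTop)
    (fun n : ℕ => ENNReal.ofReal ((1 / 4) ^ n)) hr cov hd1 hc1
  have hterm : ∀ (n : ℕ) (w : Fin n → ι), Metric.ediam (cov n w) ^ s ≤
      ∏ i : Fin n, S.wt F s (w i) := by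
    intro n w
    simp only [hcov]
    split_ifs with h
    · have b1 := hdiam (List.ofFn w)
      have h4 : ∏ i : Fin n, S.wt F s (w i) = ENNReal.ofReal (∏ i : Fin n, (S.r (w i)) ^ s) := by
        rw [ENNReal.ofReal_prod_of_nonneg (fun i _ => Real.rpow_nonneg (S.r_pos _).le _)]
        refine Finset.prod_congr rfl fun i _ => ?_
        unfold wt
        rw [if_pos (h i)]
      have h5 : S.rw' (List.ofFn w) = ∏ i : Fin n, S.r (w i) := by
        unfold rw'
        rw [List.map_ofFn, List.prod_ofFn]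
        rfl
      rw [h4, Real.finsetProd_rpow _ _ (fun i _ => (S.r_pos _).le), ← h5,
        ← ENNReal.ofReal_rpow_of_nonneg (S.rw'_pos _).le hs.le]
      exact ENNReal.rpow_le_rpow b1 hs.le
    · rw [Metric.ediam_empty, ENNReal.zero_rpow_of_pos hs]; exact zero_le
  have hsum : ∀ n : ℕ, ∑' w : Fin n → ι, Metric.ediam (cov n w) ^ s ≤ 1 := by
    intro n
    refine (ENNReal.tsum_le_tsum (hterm n)).trans ?_
    rw [tsum_prod]
    exact pow_le_one' h n
  have h6 : μH[s] (S.J F) ≤ 1 := by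
    refine key.trans ?_
    refine (liminf_le_liminf (Eventually.of_forall hsum)).trans ?_
    simp
  have h7 : μH[((⟨s, hs.le⟩ : ℝ≥0) : ℝ)] (S.J F) ≠ ∞ := (lt_of_le_of_lt h6 ENNReal.one_lt_top).ne
  have h8 := dimH_le_of_hausdorffMeasure_ne_top h7
  refine h8.trans (le_of_eq ?_)
  exact (ENNReal.ofReal_eq_coe_nnreal hs.le).symm

/-- a covering of `[0, ∑ p)` -/
lemma exists_P (F : Finset ι) (p : ι → ℝ) : ∃ P : ι → ℝ,
    ∀ t ∈ Ico (0:ℝ) (∑ e ∈ F, p e), ∃ e ∈ F, P e ≤ t ∧ t < P e + p e := by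
  classical
  induction F using Finset.induction_on with
  | empty => exact ⟨fun _ => 0, fun t ht => by simp at ht⟩
  | insert a F ha ih =>
    obtain ⟨P, hP⟩ := ih
    refine ⟨Function.update P a (∑ e ∈ F, p e), fun t ht => ?_⟩
    rw [Finset.sum_insert ha] at ht
    by_cases hc : t < ∑ e ∈ F, p e
    · obtain ⟨e, he, h1, h2⟩ := hP t ⟨ht.1, hc⟩
      have hea : e ≠ a := fun h => ha (h ▸ he)
      refine ⟨e, Finset.mem_insert_of_mem he, ?_⟩
      rw [Function.update_of_ne hea]
      exact ⟨h1, h2⟩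
    · push Not at hc
      refine ⟨a, Finset.mem_insert_self _ _, ?_⟩
      rw [Function.update_self]
      exact ⟨hc, by linarith [ht.2]⟩

/-- **Lower bound** for finite alphabets. -/
theorem le_dim_finset (F : Finset ι) {s : ℝ} (hs : 0 < s) (h : 1 ≤ ∑ e ∈ F, S.r e ^ s) :
    ENNReal.ofReal s ≤ dimH (S.J (F : Set ι)) := by
  classical
  set Q0 : ℝ := ∑ e ∈ F, S.r e ^ s with hQ0
  have hQ00 : 0 < Q0 := by linarith
  set p : ι → ℝ := fun e => S.r e ^ s / Q0 with hp
  have hp0 : ∀ e, 0 < p e := fun e => div_pos (Real.rpow_pos_of_pos (S.r_pos e) s) hQ00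
  have hple : ∀ e, p e ≤ S.r e ^ s := fun e =>
    div_le_self (Real.rpow_nonneg (S.r_pos e).le s) h
  have hpsum : ∑ e ∈ F, p e = 1 := by
    simp only [hp]
    rw [← Finset.sum_div, ← hQ0, div_self hQ00.ne']
  obtain ⟨P, hP⟩ := exists_P F p
  rw [hpsum] at hP
  -- digits
  have hdig : ∀ t : ℝ, ∃ e : ι, t ∈ Ico (0:ℝ) 1 → e ∈ F ∧ P e ≤ t ∧ t < P e + p e := by
    intro t
    by_cases ht : t ∈ Ico (0:ℝ) 1
    · obtain ⟨e, h1, h2, h3⟩ := hP t ht
      exact ⟨e, fun _ => ⟨h1, h2, h3⟩⟩
    · have hne : F.Nonempty := by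
        rcases F.eq_empty_or_nonempty with h0 | h0
        · rw [hQ0, h0] at h; simp at h; linarith
        · exact h0
      exact ⟨hne.choose, fun h' => absurd h' ht⟩
  choose dg hdg using hdig
  set T : ℝ → ℝ := fun t => (t - P (dg t)) / p (dg t) with hT
  have hTmem : ∀ t ∈ Ico (0:ℝ) 1, T t ∈ Ico (0:ℝ) 1 := by
    intro t ht
    obtain ⟨h1, h2, h3⟩ := hdg t ht
    have := hp0 (dg t)
    simp only [hT]
    constructor
    · apply div_nonneg (by linarith) this.le
    · rw [div_lt_one this]; linarith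
  have hTi : ∀ n, ∀ t ∈ Ico (0:ℝ) 1, T^[n] t ∈ Ico (0:ℝ) 1 := by
    intro n
    induction n with
    | zero => intro t ht; exact ht
    | succ n ih => intro t ht; rw [Function.iterate_succ_apply']; exact hTmem _ (ih t ht)
  set code : ℝ → ℕ → ι := fun t n => dg (T^[n] t) with hcode
  choose pt hpt using fun ω : ℕ → ι => S.exists_point ω
  -- a separation constant
  obtain ⟨δ, hδ, hsep⟩ : ∃ δ : ℝ, 0 < δ ∧ ∀ e ∈ F, ∀ e' ∈ F, e ≠ e' →
      S.c e + S.r e + δ ≤ S.c e' ∨ S.c e' + S.r e' + δ ≤ S.c e := by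
    have hfin : ∀ G : Finset (ι × ι), (∀ q ∈ G, q.1 ≠ q.2) → ∃ δ : ℝ, 0 < δ ∧ ∀ q ∈ G,
        S.c q.1 + S.r q.1 + δ ≤ S.c q.2 ∨ S.c q.2 + S.r q.2 + δ ≤ S.c q.1 := by
      intro G
      induction G using Finset.induction_on with
      | empty => intro _; exact ⟨1, one_pos, fun q hq => by simp at hq⟩
      | insert a G ha ih =>
        intro hG
        obtain ⟨δ, hδ, h1⟩ := ih (fun q hq => hG q (Finset.mem_insert_of_mem hq))
        have h2 := S.disj a.1 a.2 (hG a (Finset.mem_insert_self _ _))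
        rcases h2 with h2 | h2
        · refine ⟨min δ (S.c a.2 - (S.c a.1 + S.r a.1)), lt_min hδ (by linarith), fun q hq => ?_⟩
          rcases Finset.mem_insert.mp hq with rfl | hq
          · left; have := min_le_right δ (S.c q.2 - (S.c q.1 + S.r q.1)); linarith
          · have := min_le_left δ (S.c a.2 - (S.c a.1 + S.r a.1))
            rcases h1 q hq with h3 | h3
            · left; linarith
            · right; linarith
        · refine ⟨min δ (S.c a.1 - (S.c a.2 + S.r a.2)), lt_min hδ (by linarith), fun q hq => ?_⟩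
          rcases Finset.mem_insert.mp hq with rfl | hq
          · right; have := min_le_right δ (S.c q.1 - (S.c q.2 + S.r q.2)); linarith
          · have := min_le_left δ (S.c a.1 - (S.c a.2 + S.r a.2))
            rcases h1 q hq with h3 | h3
            · left; linarith
            · right; linarith
    obtain ⟨δ, hδ, h1⟩ := hfin (F.offDiag) (fun q hq => (Finset.mem_offDiag.mp hq).2.2)
    exact ⟨δ, hδ, fun e he e' he' hne => h1 (e, e') (Finset.mem_offDiag.mpr ⟨he, he', hne⟩)⟩
  refine Pool.Agent.X86.AF.dim_ge_of_expand (g := fun t => pt (code t)) (C := (1 / δ) ^ s)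
    (by positivity) hs (fun t ht => ⟨code t, fun n => (hdg _ (hTi n t ht)).1, hpt _⟩) ?_
  intro t ht t' ht'
  -- products of the weights
  have hprod : ∀ n, ∀ t ∈ Ico (0:ℝ) 1, ∀ t' ∈ Ico (0:ℝ) 1, (∀ k < n, code t k = code t' k) →
      |t - t'| ≤ S.rw' (pre (code t) n) ^ s := by
    intro n
    induction n with
    | zero =>
      intro t ht t' ht' _
      simp only [pre, List.range_zero, List.map_nil, rw'_nil, Real.one_rpow]
      rw [abs_le]; constructor <;> linarith [ht.1, ht.2, ht'.1, ht'.2]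
    | succ n ih =>
      intro t ht t' ht' hk
      have h1 := ih (T t) (hTmem t ht) (T t') (hTmem t' ht') (fun k hkn => by
        have := hk (k + 1) (by omega)
        simp only [hcode, Function.iterate_succ_apply] at this ⊢
        exact this)
      have h2 : dg t = dg t' := hk 0 (by omega)
      have h3 : pre (code t) (n + 1) = dg t :: pre (code (T t)) n := by
        unfold pre
        rw [List.range_succ_eq_map, List.map_cons, List.map_map]
        rfl
      rw [h3, rw'_cons, Real.mul_rpow (S.r_pos _).le (S.rw'_pos _).le]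
      have h4 : t - t' = p (dg t) * (T t - T t') := by
        simp only [hT]
        rw [← h2]
        have := (hp0 (dg t)).ne'
        field_simp
        ring
      rw [h4, abs_mul, abs_of_pos (hp0 _)]
      exact mul_le_mul (hple _) h1 (abs_nonneg _) (Real.rpow_nonneg (S.r_pos _).le s)
  by_cases heq : ∀ n, code t n = code t' n
  · -- equal codes
    have h1 : ∀ n, |t - t'| ≤ ((1 / 4 : ℝ) ^ s) ^ n := by
      intro n
      refine (hprod n t ht t' ht' (fun k _ => heq k)).trans ?_
      have := S.rw'_le (pre (code t) n)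
      rw [pre_length] at this
      calc S.rw' (pre (code t) n) ^ s ≤ ((1 / 4 : ℝ) ^ n) ^ s :=
            Real.rpow_le_rpow (S.rw'_pos _).le this hs.le
        _ = ((1 / 4 : ℝ) ^ s) ^ n := by
            rw [← Real.rpow_natCast, ← Real.rpow_natCast, ← Real.rpow_mul (by norm_num),
              ← Real.rpow_mul (by norm_num), mul_comm]
    have h2 : Tendsto (fun n : ℕ => ((1 / 4 : ℝ) ^ s) ^ n) atTop (𝓝 0) :=
      tendsto_pow_atTop_nhds_zero_of_lt_one (by positivity)
        (Real.rpow_lt_one (by norm_num) (by norm_num) hs)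
    have h3 : |t - t'| ≤ 0 := ge_of_tendsto' h2 h1
    exact h3.trans (by positivity)
  · push Not at heq
    set n := Nat.find heq with hn
    have hn1 : code t n ≠ code t' n := Nat.find_spec heq
    have hn2 : ∀ k < n, code t k = code t' k := fun k hk => not_not.mp (Nat.find_min heq hk)
    have h1 := hprod n t ht t' ht' hn2
    have hpre : pre (code t) n = pre (code t') n := by
      unfold pre
      apply List.map_congr_left
      intro k hk
      exact hn2 k (List.mem_range.mp hk)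
    obtain ⟨y, hy, hyx⟩ := hpt (code t) (n + 1)
    obtain ⟨y', hy', hyx'⟩ := hpt (code t') (n + 1)
    rw [pre_succ, S.ww_append] at hyx hyx'
    rw [← hpre] at hyx'
    have h2 : pt (code t) - pt (code t') =
        S.rw' (pre (code t) n) * (S.ww [code t n] y - S.ww [code t' n] y') := by
      rw [← hyx, ← hyx', S.ww_sub]
    have h3 := S.map1 (code t n) hy
    have h4 := S.map1 (code t' n) hy'
    have h5 : δ ≤ |S.ww [code t n] y - S.ww [code t' n] y'| := by
      have e1 : S.ww [code t n] y = S.r (code t n) * y + S.c (code t n) := rfl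
      have e2 : S.ww [code t' n] y' = S.r (code t' n) * y' + S.c (code t' n) := rfl
      rw [e1, e2]
      rcases hsep _ (hdg _ (hTi n t ht)).1 _ (hdg _ (hTi n t' ht')).1 hn1 with h6 | h6
      · rw [abs_sub_comm]
        refine le_trans ?_ (le_abs_self _)
        have h3' := h3.2
        have h4' := h4.1
        simp only [hcode] at h3' h4' h6 ⊢
        linarith
      · refine le_trans ?_ (le_abs_self _)
        have h3' := h3.1
        have h4' := h4.2
        simp only [hcode] at h3' h4' h6 ⊢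
        linarith
    show |t - t'| ≤ (1 / δ) ^ s * |pt (code t) - pt (code t')| ^ s
    rw [h2, abs_mul, abs_of_pos (S.rw'_pos _), ← Real.mul_rpow (by positivity)
      (mul_nonneg (S.rw'_pos _).le (abs_nonneg _))]
    refine h1.trans (Real.rpow_le_rpow (S.rw'_pos _).le ?_ hs.le)
    have h6 := S.rw'_pos (pre (code t) n)
    rw [one_div, inv_mul_eq_div, le_div_iff₀ hδ]
    exact mul_le_mul_of_nonneg_left h5 h6.le

/-- **Lower bound.** -/
theorem le_dim {F : Set ι} {s : ℝ} (hs : 0 < s) (h : 1 < ∑' e, S.wt F s e) :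
    ENNReal.ofReal s ≤ dimH (S.J F) := by
  classical
  rw [ENNReal.tsum_eq_iSup_sum, lt_iSup_iff] at h
  obtain ⟨G, hG⟩ := h
  set F' := G.filter (fun e => e ∈ F) with hF'
  have h1 : ∑ e ∈ G, S.wt F s e = ENNReal.ofReal (∑ e ∈ F', S.r e ^ s) := by
    rw [ENNReal.ofReal_sum_of_nonneg (fun e _ => Real.rpow_nonneg (S.r_pos e).le s), hF',
      Finset.sum_filter]
    rfl
  rw [h1] at hG
  have h2 : 1 ≤ ∑ e ∈ F', S.r e ^ s := by
    rw [← ENNReal.ofReal_one] at hG
    exact (ENNReal.ofReal_lt_ofReal_iff_of_nonneg zero_le_one).mp hG |>.le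
  refine (S.le_dim_finset F' hs h2).trans (dimH_mono (S.J_mono ?_))
  intro e he
  have : e ∈ F' := he
  rw [hF', Finset.mem_filter] at this
  exact this.2

end Sim

end Pool.Agent.X86.DS
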