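import Pool.Agent.X86.DS.Sim

/-! a system with a bad dimension spectrum -/

set_option autoImplicit false

open Set Filter Topology MeasureTheory
open scoped ENNReal NNReal

namespace Pool.Agent.X86.DS

namespace Sim

variable {ι : Type} (S : Sim ι)

lemma wt_mono (F : Set ι) {s s' : ℝ} (h : s' ≤ s) :
    ENNReal.ofReal (4 ^ (s - s')) * ∑' e, S.wt F s e ≤ ∑' e, S.wt F s' e := by
  rw [← ENNReal.tsum_mul_left]
  apply ENNReal.tsum_le_tsum
  intro e
  unfold wt
  split_ifs with he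
  · rw [← ENNReal.ofReal_mul (by positivity)]
    apply ENNReal.ofReal_le_ofReal
    have h1 := S.r_pos e
    have h2 : S.r e ^ s' = S.r e ^ s * (S.r e)⁻¹ ^ (s - s') := by
      rw [Real.inv_rpow h1.le, ← Real.rpow_neg h1.le, ← Real.rpow_add h1]
      congr 1; ring
    rw [h2, mul_comm]
    apply mul_le_mul_of_nonneg_left _ (Real.rpow_nonneg h1.le s)
    apply Real.rpow_le_rpow (by norm_num) _ (by linarith)
    rw [le_inv_comm₀ (by norm_num) h1]
    have := S.r_le e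
    linarith
  · simp

theorem le_dim' {F : Set ι} {s : ℝ} (h : 1 ≤ ∑' e, S.wt F s e) :
    ENNReal.ofReal s ≤ dimH (S.J F) := by
  apply le_of_forall_lt
  intro b hb
  have hbtop : b ≠ ∞ := ne_top_of_lt hb
  have hs : 0 < s := by
    by_contra hcon
    push Not at hcon
    rw [ENNReal.ofReal_of_nonpos hcon] at hb
    exact absurd hb not_lt_zero
  have hb1 : b.toReal < s := by
    rw [← ENNReal.ofReal_toReal hbtop] at hb
    exact (ENNReal.ofReal_lt_ofReal_iff hs).mp hb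
  obtain ⟨s', h1, h2⟩ := exists_between hb1
  have hs' : 0 < s' := lt_of_le_of_lt ENNReal.toReal_nonneg h1
  have h3 := S.wt_mono F h2.le
  have h4 : 1 < ∑' e, S.wt F s' e := by
    refine lt_of_lt_of_le ?_ h3
    have h5 : (1:ℝ) < 4 ^ (s - s') := Real.one_lt_rpow (by norm_num) (by linarith)
    calc (1 : ℝ≥0∞) < ENNReal.ofReal (4 ^ (s - s')) := by
          rw [← ENNReal.ofReal_one]; exact (ENNReal.ofReal_lt_ofReal_iff (by positivity)).mpr h5
      _ = ENNReal.ofReal (4 ^ (s - s')) * 1 := (mul_one _).symm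
      _ ≤ _ := by gcongr
  refine lt_of_lt_of_le ?_ (S.le_dim hs' h4)
  rw [← ENNReal.ofReal_toReal hbtop]
  exact (ENNReal.ofReal_lt_ofReal_iff hs').mpr h1

lemma dim_le_one (F : Set ι) : dimH (S.J F) ≤ 1 := by
  calc dimH (S.J F) ≤ dimH (univ : Set ℝ) := dimH_mono (subset_univ _)
    _ = 1 := by simpa using Real.dimH_univ

/-- the dimension as a real number -/
noncomputable def dm (F : Set ι) : ℝ := (dimH (S.J F)).toReal

lemma ofReal_dm (F : Set ι) : ENNReal.ofReal (S.dm F) = dimH (S.J F) :=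
  ENNReal.ofReal_toReal (ne_top_of_le_ne_top ENNReal.one_ne_top (S.dim_le_one F))

lemma dm_nonneg (F : Set ι) : 0 ≤ S.dm F := ENNReal.toReal_nonneg

lemma dm_le_one (F : Set ι) : S.dm F ≤ 1 := by
  have h := ENNReal.toReal_mono ENNReal.one_ne_top (S.dim_le_one F)
  rw [ENNReal.toReal_one] at h
  exact h

lemma dm_le [Countable ι] {F : Set ι} {s : ℝ} (hs : 0 < s) (h : ∑' e, S.wt F s e ≤ 1) :
    S.dm F ≤ s := by
  have := ENNReal.toReal_mono ENNReal.ofReal_ne_top (S.dim_le hs h)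
  rwa [ENNReal.toReal_ofReal hs.le] at this

lemma le_dm {F : Set ι} {s : ℝ} (h : 1 ≤ ∑' e, S.wt F s e) : s ≤ S.dm F := by
  have := S.le_dim' h
  rw [← S.ofReal_dm] at this
  by_contra hcon
  push Not at hcon
  exact absurd this (not_le.mpr ((ENNReal.ofReal_lt_ofReal_iff
    (lt_of_le_of_lt (S.dm_nonneg F) hcon)).mpr hcon))

/-- the dimension spectrum -/
def spec : Set ℝ := {x | ∃ F : Set ι, F.Nonempty ∧ x = S.dm F}

end Sim

/-- a rapidly increasing sequence -/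
lemma exists_a : ∃ a : ℕ → ℕ, (∀ n, n + 2 ≤ a n) ∧ (∀ n, a n + 1 ≤ a (n + 1)) ∧
    ∀ n, (n + 1) * ∑ k ∈ Finset.range (n + 1), (a k + 1) ≤ a (n + 1) := by
  obtain ⟨q, hq0, hq1⟩ : ∃ q : ℕ → ℕ × ℕ, q 0 = (2, 3) ∧ ∀ n, q (n + 1) =
      ((n + 1) * (q n).2 + n + 3 + (q n).1, (q n).2 + ((n + 1) * (q n).2 + n + 3 + (q n).1) + 1) :=
    ⟨fun n => Nat.rec (2, 3) (fun n p => ((n + 1) * p.2 + n + 3 + p.1,
      p.2 + ((n + 1) * p.2 + n + 3 + p.1) + 1)) n, rfl, fun n => rfl⟩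
  have hs : ∀ n, (q n).2 = ∑ k ∈ Finset.range (n + 1), ((q k).1 + 1) := by
    intro n
    induction n with
    | zero => simp [hq0]
    | succ n ih =>
      rw [Finset.sum_range_succ, ← ih, hq1]
      simp only
      ring
  refine ⟨fun n => (q n).1, fun n => ?_, fun n => ?_, fun n => ?_⟩
  · cases n with
    | zero => simp [hq0]
    | succ n => simp only [hq1]; omega
  · simp only [hq1]; omega
  · simp only [hq1]
    rw [← hs]
    omega

section

variable (a : ℕ → ℕ)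

/-- letters -/
abbrev Let : Type := Σ n : ℕ, Fin (2 ^ a n)

/-- the system -/
noncomputable def sys (ha : ∀ n, n + 2 ≤ a n) : Sim (Let a) where
  r e := (1 / 4) ^ a e.1
  c e := (1 / 2) ^ (e.1 + 1) + 2 * (e.2 : ℕ) * (1 / 4) ^ a e.1
  r_pos e := by positivity
  r_le e := by
    have := ha e.1
    calc (1 / 4 : ℝ) ^ a e.1 ≤ (1 / 4) ^ 1 :=
          pow_le_pow_of_le_one (by norm_num) (by norm_num) (by omega)
      _ = 1 / 4 := by norm_num
  c_nonneg e := by positivity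
  c_add e := by
    have h1 : ((e.2 : ℕ) : ℝ) + 1 ≤ 2 ^ a e.1 := by exact_mod_cast e.2.2
    have h2 : (1 / 4 : ℝ) ^ a e.1 = (1 / 2) ^ a e.1 * (1 / 2) ^ a e.1 := by
      rw [← mul_pow]; norm_num
    have h3 : (2:ℝ) ^ a e.1 * (1 / 2) ^ a e.1 = 1 := by rw [← mul_pow]; norm_num
    have h4 : (1 / 2 : ℝ) ^ a e.1 ≤ (1 / 2) ^ (e.1 + 2) :=
      pow_le_pow_of_le_one (by norm_num) (by norm_num) (ha e.1)
    have h5 : (0:ℝ) < (1 / 2) ^ a e.1 := by positivity
    have h6 : (2 * ((e.2 : ℕ) : ℝ) + 1) * (1 / 4) ^ a e.1 ≤ 2 * (1 / 2) ^ a e.1 := by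
      rw [h2, ← mul_assoc]
      apply mul_le_mul_of_nonneg_right _ h5.le
      nlinarith
    have h7 : (1 / 2 : ℝ) ^ (e.1 + 2) = (1 / 2) ^ (e.1 + 1) * (1 / 2) := by rw [← pow_succ]
    have h8 : (1 / 2 : ℝ) ^ (e.1 + 1) ≤ (1 / 2) ^ 1 :=
      pow_le_pow_of_le_one (by norm_num) (by norm_num) (by omega)
    rw [pow_one] at h8
    nlinarith
  disj e e' hne := by
    have key : ∀ e e' : Let a, (e.1 < e'.1 ∨ (e.1 = e'.1 ∧ (e'.2 : ℕ) < e.2)) →
        (1 / 2 : ℝ) ^ (e'.1 + 1) + 2 * (e'.2 : ℕ) * (1 / 4) ^ a e'.1 + (1 / 4) ^ a e'.1 <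
        (1 / 2) ^ (e.1 + 1) + 2 * (e.2 : ℕ) * (1 / 4) ^ a e.1 := by
      intro e e' h
      rcases h with h | ⟨h, h'⟩
      · have h1 : ((e'.2 : ℕ) : ℝ) + 1 ≤ 2 ^ a e'.1 := by exact_mod_cast e'.2.2
        have h2 : (1 / 4 : ℝ) ^ a e'.1 = (1 / 2) ^ a e'.1 * (1 / 2) ^ a e'.1 := by
          rw [← mul_pow]; norm_num
        have h3 : (2:ℝ) ^ a e'.1 * (1 / 2) ^ a e'.1 = 1 := by rw [← mul_pow]; norm_num
        have h4 : (1 / 2 : ℝ) ^ a e'.1 ≤ (1 / 2) ^ (e'.1 + 2) :=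
          pow_le_pow_of_le_one (by norm_num) (by norm_num) (ha e'.1)
        have h5 : (0:ℝ) < (1 / 2) ^ a e'.1 := by positivity
        have h6 : (2 * ((e'.2 : ℕ) : ℝ) + 1) * (1 / 4) ^ a e'.1 < 2 * (1 / 2) ^ a e'.1 := by
          rw [h2, ← mul_assoc]
          apply mul_lt_mul_of_pos_right _ h5
          nlinarith
        have h7 : (1 / 2 : ℝ) ^ (e'.1 + 2) = (1 / 2) ^ (e'.1 + 1) * (1 / 2) := by rw [← pow_succ]
        have h8 : (1 / 2 : ℝ) ^ (e'.1 + 1) ≤ (1 / 2) ^ (e.1 + 1 + 1) :=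
          pow_le_pow_of_le_one (by norm_num) (by norm_num) (by omega)
        have h9 : (1 / 2 : ℝ) ^ (e.1 + 1 + 1) = (1 / 2) ^ (e.1 + 1) * (1 / 2) := by rw [← pow_succ]
        have h10 : (0:ℝ) ≤ 2 * ((e.2 : ℕ) : ℝ) * (1 / 4) ^ a e.1 := by positivity
        nlinarith
      · obtain ⟨n, i⟩ := e
        obtain ⟨n', i'⟩ := e'
        simp only at h h' ⊢
        subst h
        have h1 : (((i' : ℕ) : ℝ)) + 1 ≤ (i : ℕ) := by exact_mod_cast h'
        have h2 : (0:ℝ) < (1 / 4) ^ a n := by positivity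
        nlinarith
    rcases lt_trichotomy e.1 e'.1 with h | h | h
    · right; exact key e e' (Or.inl h)
    · rcases lt_trichotomy (e.2 : ℕ) (e'.2 : ℕ) with h' | h' | h'
      · left; exact key e' e (Or.inr ⟨h.symm, h'⟩)
      · exfalso
        apply hne
        obtain ⟨n, i⟩ := e
        obtain ⟨n', i'⟩ := e'
        simp only at h h'
        subst h
        congr 1
        exact Fin.ext h'
      · right; exact key e e' (Or.inr ⟨h, h'⟩)
    · left; exact key e' e (Or.inl h)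

variable {a}

/-- the number of letters of a block -/
noncomputable def KK (F : Set (Let a)) (n : ℕ) : ℕ := by
  classical
  exact (Finset.univ.filter (fun i : Fin (2 ^ a n) => (⟨n, i⟩ : Let a) ∈ F)).card

lemma KK_eq (F : Set (Let a)) (n : ℕ) (G : Finset (Fin (2 ^ a n)))
    (h : ∀ i : Fin (2 ^ a n), i ∈ G ↔ (⟨n, i⟩ : Let a) ∈ F) : KK F n = G.card := by
  classical
  unfold KK
  congr 1
  ext i
  simp [h]

lemma KK_le (F : Set (Let a)) (n : ℕ) : KK F n ≤ 2 ^ a n := by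
  classical
  unfold KK
  refine (Finset.card_le_univ _).trans ?_
  simp

lemma tsum_wt (ha : ∀ n, n + 2 ≤ a n) (F : Set (Let a)) (s : ℝ) :
    ∑' e, (sys a ha).wt F s e = ∑' n, ENNReal.ofReal (KK F n * ((1 / 4 : ℝ) ^ a n) ^ s) := by
  classical
  rw [ENNReal.tsum_sigma']
  congr 1
  funext n
  rw [tsum_fintype]
  unfold Sim.wt KK
  simp only [sys]
  rw [← Finset.sum_filter, Finset.sum_const, nsmul_eq_mul, ENNReal.ofReal_mul (Nat.cast_nonneg _),
    ENNReal.ofReal_natCast]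

/-- (1) all numbers of `(0, 1/2]` belong to the spectrum -/
lemma spec_low (ha : ∀ n, n + 2 ≤ a n) {s : ℝ} (hs : 0 < s) (hs2 : s ≤ 1 / 2) :
    s ∈ (sys a ha).spec := by
  classical
  set ρ : ℕ → ℝ := fun n => ((1 / 4 : ℝ) ^ a n) ^ s with hρ
  have hρ0 : ∀ n, 0 < ρ n := fun n => by simp only [hρ]; positivity
  have hcap : ∀ n, 1 ≤ (2:ℝ) ^ a n * ρ n := by
    intro n
    simp only [hρ]
    have h1 : ((1 / 2 : ℝ) ^ a n) ≤ ((1 / 4 : ℝ) ^ a n) ^ s := by
      have e1 : (1 / 2 : ℝ) ^ a n = ((1 / 4 : ℝ) ^ a n) ^ (1 / 2 : ℝ) := by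
        have : (1 / 4 : ℝ) ^ a n = ((1 / 2 : ℝ) ^ a n) ^ (2 : ℝ) := by
          rw [Real.rpow_two, ← pow_mul, mul_comm, pow_mul]; norm_num
        rw [this, ← Real.rpow_mul (by positivity)]
        norm_num
      rw [e1]
      exact Real.rpow_le_rpow_of_exponent_ge (by positivity)
        (pow_le_one₀ (by norm_num) (by norm_num)) hs2
    have h3 : (2:ℝ) ^ a n * (1 / 2) ^ a n = 1 := by rw [← mul_pow]; norm_num
    calc (1:ℝ) = 2 ^ a n * (1 / 2) ^ a n := h3.symm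
      _ ≤ _ := by gcongr
  -- greedy expansion
  obtain ⟨rem, hr0, hr1⟩ : ∃ rem : ℕ → ℝ, rem 0 = 1 ∧
      ∀ n, rem (n + 1) = rem n - ⌊rem n / ρ n⌋₊ * ρ n :=
    ⟨fun n => Nat.rec 1 (fun n x => x - ⌊x / ρ n⌋₊ * ρ n) n, rfl, fun n => rfl⟩
  have hrange : ∀ n, 0 ≤ rem n ∧ rem n ≤ 1 ∧ rem (n + 1) < ρ n ∧ 0 ≤ rem (n + 1) := by
    have hstep : ∀ n, 0 ≤ rem n → rem (n + 1) < ρ n ∧ 0 ≤ rem (n + 1) := by
      intro n h0
      have h1 := Nat.floor_le (div_nonneg h0 (hρ0 n).le)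
      have h2 := Nat.lt_floor_add_one (rem n / ρ n)
      rw [le_div_iff₀ (hρ0 n)] at h1
      rw [div_lt_iff₀ (hρ0 n)] at h2
      rw [hr1]
      constructor <;> linarith
    have hρ1 : ∀ n, ρ n ≤ 1 := fun n => by
      simp only [hρ]
      exact Real.rpow_le_one (by positivity) (pow_le_one₀ (by norm_num) (by norm_num)) hs.le
    intro n
    induction n with
    | zero => rw [hr0]; exact ⟨zero_le_one, le_rfl, hstep 0 (by rw [hr0]; norm_num)⟩
    | succ n ih =>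
      refine ⟨ih.2.2.2, ih.2.2.1.le.trans (hρ1 n), hstep (n + 1) ih.2.2.2⟩
  set k : ℕ → ℕ := fun n => ⌊rem n / ρ n⌋₊ with hk
  have hkm : ∀ n, k n ≤ 2 ^ a n := by
    intro n
    have h1 : rem n / ρ n ≤ ((2 ^ a n : ℕ) : ℝ) := by
      rw [div_le_iff₀ (hρ0 n)]
      push_cast
      exact (hrange n).2.1.trans (hcap n)
    calc k n ≤ ⌊((2 ^ a n : ℕ) : ℝ)⌋₊ := Nat.floor_le_floor h1
      _ = 2 ^ a n := Nat.floor_natCast _
  have hsum : ∀ N, ∑ n ∈ Finset.range N, (k n : ℝ) * ρ n = 1 - rem N := by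
    intro N
    induction N with
    | zero => simp [hr0]
    | succ N ih => rw [Finset.sum_range_succ, ih, hr1]; ring
  have hrem : Tendsto rem atTop (𝓝 0) := by
    rw [← tendsto_add_atTop_iff_nat 1]
    have hρt : Tendsto ρ atTop (𝓝 0) := by
      have h1 : Tendsto (fun n : ℕ => ((1 / 4 : ℝ) ^ s) ^ n) atTop (𝓝 0) :=
        tendsto_pow_atTop_nhds_zero_of_lt_one (by positivity)
          (Real.rpow_lt_one (by norm_num) (by norm_num) hs)
      refine squeeze_zero (fun n => (hρ0 n).le) (fun n => ?_) h1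
      simp only [hρ]
      rw [← Real.rpow_natCast ((1 / 4 : ℝ) ^ s) n, ← Real.rpow_mul (by norm_num), mul_comm,
        Real.rpow_mul (by norm_num), Real.rpow_natCast]
      apply Real.rpow_le_rpow (by positivity) _ hs.le
      exact pow_le_pow_of_le_one (by norm_num) (by norm_num) (by have := ha n; omega)
    exact squeeze_zero (fun n => (hrange n).2.2.2) (fun n => (hrange n).2.2.1.le) hρt
  have hhs : HasSum (fun n => (k n : ℝ) * ρ n) 1 := by
    rw [hasSum_iff_tendsto_nat_of_nonneg (fun n => mul_nonneg (Nat.cast_nonneg _) (hρ0 n).le)]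
    simp_rw [hsum]
    have := (tendsto_const_nhds (x := (1:ℝ))).sub hrem
    rwa [sub_zero] at this
  set F : Set (Let a) := {e | (e.2 : ℕ) < k e.1} with hF
  have hKK : ∀ n, KK F n = k n := by
    intro n
    rw [KK_eq F n (Finset.univ.filter (fun i : Fin (2 ^ a n) => (i : ℕ) < k n))
      (fun i => by simp [hF]), Fin.card_filter_val_lt]
    exact min_eq_right (hkm n)
  have hone : ∑' e, (sys a ha).wt F s e = 1 := by
    rw [tsum_wt]
    simp_rw [hKK]
    rw [← ENNReal.ofReal_tsum_of_nonneg (fun n => mul_nonneg (Nat.cast_nonneg _) (hρ0 n).le)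
      hhs.summable, hhs.tsum_eq, ENNReal.ofReal_one]
  have hne : F.Nonempty := by
    by_contra hcon
    rw [not_nonempty_iff_eq_empty] at hcon
    rw [hcon] at hone
    simp [Sim.wt] at hone
  refine ⟨F, hne, le_antisymm ?_ ?_⟩
  · exact (sys a ha).le_dm hone.ge
  · exact (sys a ha).dm_le hs hone.le

/-- zero belongs to the spectrum -/
lemma spec_zero (ha : ∀ n, n + 2 ≤ a n) : (0:ℝ) ∈ (sys a ha).spec := by
  classical
  have h0 : 0 < 2 ^ a 0 := by positivity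
  set e0 : Let a := ⟨0, ⟨0, h0⟩⟩ with he0
  refine ⟨{e0}, singleton_nonempty _, le_antisymm ((sys a ha).dm_nonneg _) ?_⟩
  apply le_of_forall_pos_le_add
  intro ε hε
  rw [zero_add]
  apply (sys a ha).dm_le hε
  rw [tsum_eq_single e0]
  · unfold Sim.wt
    rw [if_pos (mem_singleton _), ENNReal.ofReal_le_one]
    exact Real.rpow_le_one ((sys a ha).r_pos _).le (by have := (sys a ha).r_le e0; linarith) hε.le
  · intro e he
    unfold Sim.wt
    rw [if_neg (by simpa using he)]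

/-- (3) the spectrum contains numbers slightly larger than `1/2` -/
lemma spec_mid (ha : ∀ n, n + 2 ≤ a n) {ε : ℝ} (hε : 0 < ε) :
    ∃ x ∈ (sys a ha).spec, 1 / 2 < x ∧ x ≤ 1 / 2 + ε := by
  classical
  -- choice of N
  have hlim : Tendsto (fun N : ℕ => ((1 / 4 : ℝ) ^ a 0) ^ ε + ((1 / 4 : ℝ) ^ (1 / 2 : ℝ)) ^ N) atTop
      (𝓝 (((1 / 4 : ℝ) ^ a 0) ^ ε + 0)) :=
    tendsto_const_nhds.add (tendsto_pow_atTop_nhds_zero_of_lt_one (by positivity)
      (Real.rpow_lt_one (by norm_num) (by norm_num) (by norm_num)))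
  have hlt : ((1 / 4 : ℝ) ^ a 0) ^ ε + 0 < 1 := by
    rw [add_zero]
    apply Real.rpow_lt_one (by positivity) _ hε
    exact pow_lt_one₀ (by norm_num) (by norm_num) (by have := ha 0; omega)
  obtain ⟨N, hN1, hN2⟩ := ((hlim.eventually_lt_const hlt).and (eventually_ge_atTop 1)).exists
  have hNpos : 0 < 2 ^ a N := by positivity
  set F : Set (Let a) := {e | e.1 = 0 ∨ (e.1 = N ∧ (e.2 : ℕ) = 0)} with hF
  have hK0 : KK F 0 = 2 ^ a 0 := by
    rw [KK_eq F 0 Finset.univ (fun i => by simp [hF])]; simp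
  have hKN : KK F N = 1 := by
    rw [KK_eq F N {⟨0, hNpos⟩} (fun i => ?_)]
    · simp
    · simp only [hF, Finset.mem_singleton, mem_ofPred_eq]
      constructor
      · rintro rfl; right; simp
      · rintro (h | h)
        · omega
        · exact Fin.ext h.2
  have hKo : ∀ n, n ≠ 0 → n ≠ N → KK F n = 0 := by
    intro n h1 h2
    rw [KK_eq F n ∅ (fun i => ?_)]
    · simp
    · simp only [hF, mem_ofPred_eq, Finset.notMem_empty, false_iff]
      rintro (h | h)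
      · exact h1 h
      · exact h2 h.1
  have hsum : ∀ s : ℝ, ∑' e, (sys a ha).wt F s e = ENNReal.ofReal
      (2 ^ a 0 * ((1 / 4 : ℝ) ^ a 0) ^ s + ((1 / 4 : ℝ) ^ a N) ^ s) := by
    intro s
    rw [tsum_wt, tsum_eq_sum (s := {0, N})]
    · rw [Finset.sum_pair (by omega), hK0, hKN, ← ENNReal.ofReal_add (by positivity) (by positivity)]
      push_cast
      rw [one_mul]
    · intro n hn
      simp only [Finset.mem_insert, Finset.mem_singleton, not_or] at hn
      rw [hKo n hn.1 hn.2]; simp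
  have hhalf : ∀ n, ((1 / 4 : ℝ) ^ a n) ^ (1 / 2 : ℝ) = (1 / 2) ^ a n := by
    intro n
    have : (1 / 4 : ℝ) ^ a n = ((1 / 2 : ℝ) ^ a n) ^ (2 : ℝ) := by
      rw [Real.rpow_two, ← pow_mul, mul_comm, pow_mul]; norm_num
    rw [this, ← Real.rpow_mul (by positivity)]
    norm_num
  have h22 : (2:ℝ) ^ a 0 * (1 / 2) ^ a 0 = 1 := by rw [← mul_pow]; norm_num
  refine ⟨(sys a ha).dm F, ⟨F, ⟨⟨0, ⟨0, by positivity⟩⟩, Or.inl rfl⟩, rfl⟩, ?_, ?_⟩
  · -- larger than 1/2
    have hcont : ContinuousAt (fun s : ℝ => (2:ℝ) ^ a 0 * ((1 / 4 : ℝ) ^ a 0) ^ s +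
        ((1 / 4 : ℝ) ^ a N) ^ s) (1 / 2) := by
      apply ContinuousAt.add
      · apply ContinuousAt.mul continuousAt_const
        exact Real.continuousAt_const_rpow (by positivity)
      · exact Real.continuousAt_const_rpow (by positivity)
    have hval : 1 < (2:ℝ) ^ a 0 * ((1 / 4 : ℝ) ^ a 0) ^ (1 / 2 : ℝ) +
        ((1 / 4 : ℝ) ^ a N) ^ (1 / 2 : ℝ) := by
      rw [hhalf, hhalf, h22]
      have : (0:ℝ) < (1 / 2) ^ a N := by positivity
      linarith
    have hev := hcont.eventually (lt_mem_nhds hval)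
    rw [Metric.eventually_nhds_iff] at hev
    obtain ⟨δ, hδ, hev⟩ := hev
    have h1 : 1 / 2 + δ / 2 ≤ (sys a ha).dm F := by
      apply (sys a ha).le_dm
      rw [hsum, ENNReal.one_le_ofReal]
      refine (hev ?_).le
      rw [Real.dist_eq, add_sub_cancel_left, abs_of_pos (by linarith)]
      linarith
    linarith
  · apply (sys a ha).dm_le (by linarith)
    rw [hsum, ENNReal.ofReal_le_one]
    refine le_trans ?_ hN1.le
    rw [Real.rpow_add (by positivity), Real.rpow_add (by positivity), hhalf, hhalf, ← mul_assoc, h22,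
      one_mul]
    gcongr
    have e1 : ((1 / 4 : ℝ) ^ (1 / 2 : ℝ)) = 1 / 2 := by
      have : (1 / 4 : ℝ) = (1 / 2) ^ (2 : ℝ) := by norm_num
      rw [this, ← Real.rpow_mul (by norm_num)]; norm_num
    rw [e1]
    calc (1 / 2 : ℝ) ^ a N * ((1 / 4 : ℝ) ^ a N) ^ ε ≤ (1 / 2 : ℝ) ^ a N * 1 := by
          gcongr
          exact Real.rpow_le_one (by positivity) (pow_le_one₀ (by norm_num) (by norm_num)) hε.le
      _ = (1 / 2 : ℝ) ^ a N := mul_one _
      _ ≤ (1 / 2 : ℝ) ^ N := pow_le_pow_of_le_one (by norm_num) (by norm_num)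
          (by have := ha N; omega)

end

end Pool.Agent.X86.DS
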