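import Pool.Agent.X86.DS.Def
import Pool.Agent.X86.DS.High

/-! the example in all dimensions -/

set_option autoImplicit false

open Set Filter Topology MeasureTheory
open scoped ENNReal NNReal

namespace Pool.Agent.X86.DS

section

variable {ι : Type} (S : Sim ι) {V : Type} [NormedAddCommGroup V] [InnerProductSpace ℝ V] (v : V)

/-- similarities in `V` -/
noncomputable def vphi (e : ι) (x : V) : V := S.r e • x + S.c e • v

lemma word_vphi (w : List ι) (x : V) :
    word (vphi S v) w x = S.rw' w • x + S.ww w 0 • v := by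
  induction w with
  | nil => simp [word]
  | cons e w ih =>
    have : word (vphi S v) (e :: w) x = vphi S v e (word (vphi S v) w x) := rfl
    rw [this, ih, vphi, Sim.rw'_cons, Sim.ww_cons, smul_add, smul_smul, smul_smul, add_assoc,
      ← add_smul]

lemma ww_affine (w : List ι) (y : ℝ) : S.ww w y = S.rw' w * y + S.ww w 0 := by
  have := S.ww_sub w y 0
  rw [sub_zero] at this
  linarith

lemma word_line (w : List ι) (y : ℝ) : word (vphi S v) w (y • v) = S.ww w y • v := by
  rw [word_vphi, smul_smul, ← add_smul, ← ww_affine]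

lemma fderiv_word (w : List ι) (x : V) : fderiv ℝ (word (vphi S v) w) x =
    S.rw' w • ContinuousLinearMap.id ℝ V := by
  have h : word (vphi S v) w = fun x => S.rw' w • x + S.ww w 0 • v := by
    funext x; exact word_vphi S v w x
  rw [h]
  exact (((hasFDerivAt_id x).const_smul (S.rw' w)).add_const _).fderiv

lemma fderiv_vphi (e : ι) (x : V) : fderiv ℝ (vphi S v e) x =
    S.r e • ContinuousLinearMap.id ℝ V := by
  exact (((hasFDerivAt_id x).const_smul (S.r e)).add_const _).fderiv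

lemma vphi_sub (e : ι) (x : V) : vphi S v e x - (1 / 2 : ℝ) • v =
    S.r e • (x - (1 / 2 : ℝ) • v) + (S.r e / 2 + S.c e - 1 / 2) • v := by
  unfold vphi
  rw [sub_smul, add_smul, smul_sub, smul_smul]
  have : S.r e / 2 = S.r e * (1 / 2) := by ring
  rw [this]
  abel

lemma vphi_dist (hv : ‖v‖ = 1) (e : ι) (x : V) : dist (vphi S v e x) ((1 / 2 : ℝ) • v) ≤
    S.r e * dist x ((1 / 2 : ℝ) • v) + (1 - S.r e) / 2 := by
  rw [dist_eq_norm, dist_eq_norm, vphi_sub]
  refine (norm_add_le _ _).trans ?_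
  rw [norm_smul, norm_smul, hv, mul_one, Real.norm_of_nonneg (S.r_pos e).le, Real.norm_eq_abs]
  have h1 := S.c_nonneg e
  have h2 := S.c_add e
  have : |S.r e / 2 + S.c e - 1 / 2| ≤ (1 - S.r e) / 2 := by
    rw [abs_le]; constructor <;> linarith
  linarith

lemma inner_mem (hv : ‖v‖ = 1) {x : V} (hx : x ∈ Metric.ball ((1 / 2 : ℝ) • v) (1 / 2)) :
    0 < inner ℝ x v ∧ inner ℝ x v < 1 := by
  have h1 : |inner ℝ (x - (1 / 2 : ℝ) • v) v| ≤ ‖x - (1 / 2 : ℝ) • v‖ * ‖v‖ :=
    abs_real_inner_le_norm _ _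
  rw [hv, mul_one] at h1
  rw [Metric.mem_ball, dist_eq_norm] at hx
  have h2 : inner ℝ (x - (1 / 2 : ℝ) • v) v = inner ℝ x v - 1 / 2 := by
    rw [inner_sub_left, inner_smul_left, real_inner_self_eq_norm_sq, hv]
    simp
  rw [h2] at h1
  have h3 := abs_le.mp (h1.trans hx.le)
  have h4 := abs_lt.mp (lt_of_le_of_lt h1 hx)
  constructor <;> linarith

lemma inner_vphi (hv : ‖v‖ = 1) (e : ι) (x : V) :
    inner ℝ (vphi S v e x) v = S.r e * inner ℝ x v + S.c e := by
  unfold vphi
  rw [inner_add_left, inner_smul_left, inner_smul_left, real_inner_self_eq_norm_sq, hv]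
  simp

lemma osc_vphi (hv : ‖v‖ = 1) {e e' : ι} (hne : e ≠ e') :
    Disjoint (vphi S v e '' Metric.ball ((1 / 2 : ℝ) • v) (1 / 2))
      (vphi S v e' '' Metric.ball ((1 / 2 : ℝ) • v) (1 / 2)) := by
  rw [Set.disjoint_left]
  rintro _ ⟨x, hx, rfl⟩ ⟨y, hy, hxy⟩
  have h1 := inner_mem v hv hx
  have h2 := inner_mem v hv hy
  have h3 : inner ℝ (vphi S v e' y) v = inner ℝ (vphi S v e x) v := by rw [hxy]
  rw [inner_vphi S v hv, inner_vphi S v hv] at h3
  have p1 := S.r_pos e
  have p2 := S.r_pos e'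
  have q1 : 0 < S.r e * inner ℝ x v := mul_pos p1 h1.1
  have q2 : S.r e * inner ℝ x v < S.r e * 1 := mul_lt_mul_of_pos_left h1.2 p1
  have q3 : 0 < S.r e' * inner ℝ y v := mul_pos p2 h2.1
  have q4 : S.r e' * inner ℝ y v < S.r e' * 1 := mul_lt_mul_of_pos_left h2.2 p2
  rcases S.disj e e' hne with h | h <;> linarith

/-- the cone condition for the ball of radius `1/2` -/
lemma cone_ball {m x : V} (hx : dist x m = 1 / 2) {y : V} (hne : y ≠ x)
    (hang : InnerProductGeometry.angle (y - x) ((2:ℝ) • (m - x)) < Real.pi / 3)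
    (hl : inner ℝ (y - x) ((2:ℝ) • (m - x)) < 1 / 4) : dist y m < 1 / 2 := by
  set h := y - x with hh
  set u := (2:ℝ) • (m - x) with hu
  have hmx : ‖m - x‖ = 1 / 2 := by rw [← hx, dist_comm, dist_eq_norm]
  have hu1 : ‖u‖ = 1 := by
    rw [hu, norm_smul, hmx]; norm_num
  have hh0 : 0 < ‖h‖ := by
    rw [norm_pos_iff, hh, sub_ne_zero]; exact hne
  have hcos : 1 / 2 < Real.cos (InnerProductGeometry.angle h u) := by
    rw [← Real.cos_pi_div_three]
    apply Real.cos_lt_cos_of_nonneg_of_le_pi (InnerProductGeometry.angle_nonneg _ _)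
    · linarith [Real.pi_pos]
    · exact hang
  have hin : Real.cos (InnerProductGeometry.angle h u) * (‖h‖ * ‖u‖) = inner ℝ h u :=
    InnerProductGeometry.cos_angle_mul_norm_mul_norm h u
  rw [hu1, mul_one] at hin
  have h1 : ‖h‖ < 1 / 2 := by nlinarith
  have h2 : ‖h‖ / 2 < inner ℝ h u := by nlinarith
  have h3 : y - m = h - (1 / 2 : ℝ) • u := by
    rw [hh, hu, smul_smul]; norm_num
  rw [dist_eq_norm, h3]
  have h4 : ‖h - (1 / 2 : ℝ) • u‖ ^ 2 < (1 / 2) ^ 2 := by
    rw [norm_sub_sq_real, inner_smul_right, norm_smul, hu1, mul_one]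
    norm_num
    nlinarith
  exact lt_of_pow_lt_pow_left₀ 2 (by norm_num) h4

lemma image_J (hv : ‖v‖ = 1) (F : Set ι) :
    {x : V | ∃ ω : ℕ → ι, (∀ n, ω n ∈ F) ∧ ∀ n, x ∈ word (vphi S v) ((List.range n).map ω) ''
      Metric.closedBall ((1 / 2 : ℝ) • v) (1 / 2)} = (fun t : ℝ => t • v) '' S.J F := by
  have hline : ∀ y ∈ Icc (0:ℝ) 1, y • v ∈ Metric.closedBall ((1 / 2 : ℝ) • v) (1 / 2) := by
    intro y hy
    rw [Metric.mem_closedBall, dist_eq_norm, ← sub_smul, norm_smul, hv, mul_one, Real.norm_eq_abs,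
      abs_le]
    constructor <;> linarith [hy.1, hy.2]
  apply Subset.antisymm
  · rintro x ⟨ω, h1, h2⟩
    obtain ⟨t, ht⟩ := S.exists_point ω
    refine ⟨t, ⟨ω, h1, ht⟩, ?_⟩
    simp only
    -- distances
    have hd : ∀ n : ℕ, dist (t • v) x ≤ (1 / 4 : ℝ) ^ n := by
      intro n
      obtain ⟨y, hy, hyx⟩ := h2 n
      obtain ⟨z, hz, hzt⟩ := ht n
      have hz' := hline z hz
      have e3 : (List.range n).map ω = Sim.pre ω n := rfl
      rw [e3] at hyx
      rw [← hyx, ← hzt, ← word_line, word_vphi, word_vphi, dist_add_right, dist_smul₀,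
        Real.norm_of_nonneg (S.rw'_pos _).le]
      have e1 : S.rw' (Sim.pre ω n) ≤ (1 / 4) ^ n := by
        have := S.rw'_le (Sim.pre ω n)
        rwa [Sim.pre_length] at this
      have e2 : dist (z • v) y ≤ 1 := by
        refine (dist_triangle_right _ _ ((1 / 2 : ℝ) • v)).trans ?_
        rw [Metric.mem_closedBall] at hz' hy
        linarith
      calc S.rw' (Sim.pre ω n) * dist (z • v) y ≤ (1 / 4) ^ n * 1 :=
            mul_le_mul e1 e2 dist_nonneg (by positivity)
        _ = (1 / 4 : ℝ) ^ n := mul_one _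
    have hl : Tendsto (fun n : ℕ => (1 / 4 : ℝ) ^ n) atTop (𝓝 0) :=
      tendsto_pow_atTop_nhds_zero_of_lt_one (by norm_num) (by norm_num)
    have : dist (t • v) x ≤ 0 := ge_of_tendsto' hl hd
    exact dist_le_zero.mp this
  · rintro _ ⟨t, ⟨ω, h1, h2⟩, rfl⟩
    refine ⟨ω, h1, fun n => ?_⟩
    obtain ⟨y, hy, hyt⟩ := h2 n
    refine ⟨y • v, hline y hy, ?_⟩
    rw [word_line]
    simp only
    rw [← hyt]
    rfl

end

/-- the system in `ℝ^d` -/
noncomputable def cifs {ι : Type} [Countable ι] [Nontrivial ι] (S : Sim ι) (d : ℕ)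
    (v : EuclideanSpace ℝ (Fin d)) (hv : ‖v‖ = 1) : CIFS d ι where
  X := Metric.closedBall ((1 / 2 : ℝ) • v) (1 / 2)
  U := Metric.ball ((1 / 2 : ℝ) • v) 1
  φ := vphi S v
  countable := inferInstance
  nontrivial := inferInstance
  goodSet := by
    refine ⟨isCompact_closedBall _ _,
      (convex_closedBall _ _).isConnected ⟨_, Metric.mem_closedBall_self (by norm_num)⟩, ?_⟩
    rw [interior_closedBall _ (by norm_num), closure_ball _ (by norm_num)]
  contracting := by
    refine ⟨fun e x hx => ?_, 1 / 4, by norm_num, fun e x _ y _ => ?_⟩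
    · rw [Metric.mem_closedBall] at hx ⊢
      have := vphi_dist S v hv e x
      have h1 := S.r_pos e
      nlinarith
    · unfold vphi
      rw [dist_add_right, dist_smul₀, Real.norm_of_nonneg (S.r_pos _).le]
      exact mul_le_mul_of_nonneg_right (S.r_le e) dist_nonneg
  openSetCondition a b hab := by
    rw [interior_closedBall _ (by norm_num)]
    exact osc_vphi S v hv hab
  open_U := Metric.isOpen_ball
  connected_U := (convex_ball _ _).isConnected ⟨_, Metric.mem_ball_self (by norm_num)⟩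
  X_sub := Metric.closedBall_subset_ball (by norm_num)
  conformal := by
    refine ⟨1, one_pos, fun e => ⟨fun x hx => ?_, fun x _ y _ hxy => ?_, ?_, fun x _ => ?_,
      0, fun x _ y _ => ?_⟩⟩
    · rw [Metric.mem_ball] at hx ⊢
      have := vphi_dist S v hv e x
      have h1 := S.r_pos e
      have h2 := S.r_le e
      nlinarith
    · unfold vphi at hxy
      have := add_right_cancel hxy
      exact smul_right_injective _ (S.r_pos e).ne' this
    · have : ContDiff ℝ 1 (vphi S v e) := (contDiff_id.const_smul (S.r e)).add contDiff_const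
      exact this.contDiffOn
    · refine ⟨S.r e, S.r_pos e, fun h => ?_⟩
      rw [fderiv_vphi]
      simp [norm_smul, abs_of_pos (S.r_pos e)]
    · rw [fderiv_vphi, fderiv_vphi]; simp
  coneCondition := by
    refine ⟨Real.pi / 3, 1 / 4, by positivity, by linarith [Real.pi_pos], by norm_num,
      fun x hx => ?_⟩
    rw [frontier_closedBall _ (by norm_num), Metric.mem_sphere] at hx
    refine ⟨(2:ℝ) • ((1 / 2 : ℝ) • v - x), ?_, ?_⟩
    · rw [norm_smul, ← dist_eq_norm, dist_comm, hx]; norm_num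
    · rintro y ⟨h1, h2, h3⟩
      rw [interior_closedBall _ (by norm_num), Metric.mem_ball]
      exact cone_ball hx h1 h2 h3
  boundedDistortion := ⟨1, le_rfl, fun w x _ y _ => by
    rw [fderiv_word, fderiv_word, one_mul]⟩

lemma dimH_cifs {ι : Type} [Countable ι] [Nontrivial ι] (S : Sim ι) (d : ℕ)
    (v : EuclideanSpace ℝ (Fin d)) (hv : ‖v‖ = 1) (F : Set ι) :
    dimH ((cifs S d v hv).J F) = dimH (S.J F) := by
  have h : (cifs S d v hv).J F = (fun t : ℝ => t • v) '' S.J F := image_J S v hv F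
  rw [h]
  have hiso : Isometry (fun t : ℝ => t • v) := by
    apply Isometry.of_dist_eq
    intro s t
    rw [dist_eq_norm, ← sub_smul, norm_smul, hv, mul_one, Real.dist_eq, Real.norm_eq_abs]
  exact hiso.dimH_image _

/-- the local dimension on `[0, 1/2]` -/
lemma localDim_low {F : Set ℝ} (hF : Icc (0:ℝ) (1 / 2) ⊆ F) {x : ℝ} (hx : x ∈ Icc (0:ℝ) (1 / 2)) :
    localDim F x = 1 := by
  unfold localDim
  have h1 : ∀ A : Set ℝ, dimH A ≤ 1 := fun A => by
    calc dimH A ≤ dimH (univ : Set ℝ) := dimH_mono (subset_univ _)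
      _ = 1 := by simpa using Real.dimH_univ
  apply le_antisymm
  · exact (iInf₂_le 1 one_pos).trans (h1 _)
  · refine le_iInf₂ fun ε hε => ?_
    have h2 : Ioo (max 0 (x - ε)) (min (1 / 2) (x + ε)) ⊆ F ∩ Metric.ball x ε := by
      intro y hy
      have a1 := (le_max_left _ _).trans_lt hy.1
      have a2 := (le_max_right _ _).trans_lt hy.1
      have a3 := hy.2.trans_le (min_le_left _ _)
      have a4 := hy.2.trans_le (min_le_right _ _)
      refine ⟨hF ⟨a1.le, a3.le⟩, ?_⟩
      rw [Metric.mem_ball, Real.dist_eq, abs_lt]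
      constructor <;> linarith
    have h3 : (Ioo (max 0 (x - ε)) (min (1 / 2) (x + ε))).Nonempty := by
      rw [nonempty_Ioo, max_lt_iff, lt_min_iff, lt_min_iff]
      refine ⟨⟨by norm_num, by linarith [hx.1]⟩, by linarith [hx.2], by linarith⟩
    have h4 : dimH (Ioo (max 0 (x - ε)) (min (1 / 2) (x + ε))) = 1 := by
      have := Real.dimH_of_nonempty_interior (E := ℝ)
        (s := Ioo (max 0 (x - ε)) (min (1 / 2) (x + ε))) (by rwa [isOpen_Ioo.interior_eq])
      simpa using this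
    rw [← h4]
    exact dimH_mono h2

lemma localDim_high {F : Set ℝ} (hF : ∀ t : ℝ, 1 / 2 < t → dimH (F ∩ Ici t) = 0) {x : ℝ}
    (hx : 1 / 2 < x) : localDim F x = 0 := by
  unfold localDim
  apply le_antisymm _ zero_le
  refine (iInf₂_le ((x - 1 / 2) / 2) (by linarith)).trans ?_
  rw [← hF ((x + 1 / 2) / 2) (by linarith)]
  apply dimH_mono
  rintro y ⟨hy, hyb⟩
  refine ⟨hy, ?_⟩
  rw [Metric.mem_ball, Real.dist_eq, abs_lt] at hyb
  rw [mem_Ici]
  linarith [hyb.1]

/-- **the example** -/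
theorem exists_example : ∃ (E : Type) (_ : Infinite E) (_ : Countable E) (D : Set ℝ),
    Icc (0:ℝ) (1 / 2) ⊆ D ∧ (∀ t : ℝ, 1 / 2 < t → dimH (D ∩ Ici t) = 0) ∧
    (∀ ε : ℝ, 0 < ε → ∃ x ∈ D, 1 / 2 < x ∧ x ≤ 1 / 2 + ε) ∧
    ∀ d : ℕ, 1 ≤ d → ∃ S : CIFS d E, (∀ F : Set E, (dimH (S.J F)).toReal ∈ D) ∧
      ∀ x ∈ D, ∃ F : Set E, F.Nonempty ∧ x = (dimH (S.J F)).toReal := by
  obtain ⟨a, ha, h2, h3⟩ := exists_a
  have hinf : Infinite (Let a) := by
    refine Infinite.of_injective (fun n : ℕ => (⟨n, ⟨0, by positivity⟩⟩ : Let a)) ?_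
    intro n m h
    exact congrArg Sigma.fst h
  refine ⟨Let a, hinf, inferInstance, (sys a ha).spec, ?_, fun t ht => spec_high ha h2 h3 ht,
    fun ε hε => spec_mid ha hε, fun d hd => ?_⟩
  · intro x hx
    rcases eq_or_lt_of_le hx.1 with h0 | h0
    · rw [← h0]; exact spec_zero ha
    · exact spec_low ha h0 hx.2
  · set v : EuclideanSpace ℝ (Fin d) := EuclideanSpace.single ⟨0, hd⟩ 1 with hv
    have hv1 : ‖v‖ = 1 := by rw [hv]; simp
    refine ⟨cifs (sys a ha) d v hv1, fun F => ?_, ?_⟩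
    · rw [dimH_cifs]
      rcases F.eq_empty_or_nonempty with rfl | hF
      · have : (sys a ha).J ∅ = ∅ := by
          rw [eq_empty_iff_forall_notMem]
          rintro x ⟨ω, h1, _⟩
          exact h1 0
        rw [this, dimH_empty]
        simpa using spec_zero ha
      · exact ⟨F, hF, rfl⟩
    · rintro x ⟨F, hF, rfl⟩
      exact ⟨F, hF, by rw [dimH_cifs]; rfl⟩

end Pool.Agent.X86.DS
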